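import Mathlib
import Pool.Agent.Y701.ZT.Layer

/-!
# The splitting field of `P(C_n, s)` over `ℚ_p` contains subfields of exact degree `φ(p ^ n) / r`

For every `ℤ_p`-tower of curves `C_n` over a finite field of characteristic `p`, ramified over finitely
many closed points, there is a divisor `r` of `p - 1` (of `2` if `p = 2`) such that for all large `n` the
splitting field `ℚ_{p,n}` of `P(C_n, s)` over `ℚ_p` contains, for every character `χ` of order `p ^ n`,
the field generated by the coefficients of `L(χ, s)`, and that field has degree exactly `φ(p ^ n) / r`.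
So `φ(p ^ n) / r` divides `[ℚ_{p,n} : ℚ_p]`, which tends to infinity.
-/

open PowerSeries

namespace Pool.Agent.Results.MP_7758f8_nt.ExactSubfields

open Pool.Agent.H707R3

open scoped PowerSeries.WithPiTopology in
/-- The zeta function `Z(C, s) = ∏ (1 - s ^ deg x)⁻¹`, product over the closed points `x` of the curve
`C` with function field `K` over `k`. -/
noncomputable def zeta (p : ℕ) [Fact p.Prime] (k K : Type) [Field k] [Field K] [Algebra k K] :
    PowerSeries ℂ_[p] :=
  ∏' x : Place k K, (1 - X ^ x.deg)⁻¹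

/-- `A` is the multiset of reciprocal roots of `P(C, s) = Z(C, s) (1 - s) (1 - q s)`, where `q` is the
number of elements of `k`: `P(C, s) = ∏ (1 - β s)`, product over `β ∈ A`. -/
def IsRecipRoots (p : ℕ) [Fact p.Prime] (k K : Type) [Field k] [Field K] [Algebra k K]
    (A : Multiset ℂ_[p]) : Prop :=
  zeta p k K * (1 - X) * (1 - C (Nat.card k : ℂ_[p]) * X) = (A.map fun β => 1 - C β * X).prod

/-- The field generated over `ℚ_p` by the coefficients of `L(χ, s)`. -/
noncomputable def coeffField {p : ℕ} [Fact p.Prime] (k : Type) {F E : Type} [Field k] [Field F]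
    [Algebra k F] [Field E] [Algebra F E] (χ : (E ≃ₐ[F] E) →* ℂ_[p]ˣ) :
    IntermediateField ℚ_[p] ℂ_[p] :=
  IntermediateField.adjoin ℚ_[p] (Set.range fun j => coeff j (Lfun k χ))

/-- For every `ℤ_p`-tower there are `N` and a divisor `r` of `p - 1` (of `2` if `p = 2`) such that for
`n ≥ N` the zeta function of the layer `C_n` (the intermediate field `K` with `[K : F] = p ^ n`) has
reciprocal roots as above, and the field `ℚ_{p,n}` they generate over `ℚ_p` contains the coefficient field
of `L(χ, s)` for every character `χ` of order `p ^ n`; this field has degree exactly `φ(p ^ n) / r`, and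
`[ℚ_{p,n} : ℚ_p]` is finite and divisible by `φ(p ^ n) / r`. -/
theorem result (p : ℕ) [Fact p.Prime] (k F E : Type) [Field k] [Finite k] [CharP k p]
    [Field F] [Algebra k F] [Field E] [Algebra F E] [Algebra k E] [IsScalarTower k F E]
    (h : IsZpTower k F E p) :
    ∃ r : ℕ, r ∣ (if p = 2 then 2 else p - 1) ∧ ∃ N : ℕ, ∀ n, N ≤ n →
      ∀ K : IntermediateField F E, Module.finrank F K = p ^ n →
        (∃ A, IsRecipRoots p k K A) ∧
          ∀ A, IsRecipRoots p k K A →
            (∀ χ : (E ≃ₐ[F] E) →* ℂ_[p]ˣ, orderOf χ = p ^ n →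
              coeffField k χ ≤ IntermediateField.adjoin ℚ_[p] {β : ℂ_[p] | β ∈ A} ∧
              Module.finrank ℚ_[p] (coeffField k χ) * r = Nat.totient (p ^ n)) ∧
            FiniteDimensional ℚ_[p] (IntermediateField.adjoin ℚ_[p] {β : ℂ_[p] | β ∈ A}) ∧
            Nat.totient (p ^ n) ∣
              Module.finrank ℚ_[p] (IntermediateField.adjoin ℚ_[p] {β : ℂ_[p] | β ∈ A}) * r := by
  obtain ⟨r, -, hr, N, hN⟩ := Y701.ZT.layer_exact h
  rw [Y701.ZT.totient_q0] at hr
  refine ⟨r, hr, N, fun n hn K hK => ⟨H387R3.ZT.exists_roots h K n hK, fun A hA => ?_⟩⟩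
  obtain ⟨h1, h2, h3, -, -⟩ := hN n hn K hK A hA
  exact ⟨fun χ hχ => ⟨(h1 χ hχ).1, (h1 χ hχ).2.1⟩, h2, h3⟩

end Pool.Agent.Results.MP_7758f8_nt.ExactSubfields
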